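import Pool.Agent.W172.WL.Stm

set_option autoImplicit false

open MeasureTheory Set Filter Topology
open scoped ENNReal NNReal

namespace Pool.Agent.W653.WL

open Pool.Agent.W172.WL

/-- the index of a cell of level `m` containing `x` -/
noncomputable def idx (b m : ℕ) (x : ℝ) : ℕ := min ⌊(b : ℝ) ^ m * x⌋₊ (b ^ m - 1)

theorem idx_spec {b m : ℕ} (hb : 2 ≤ b) {x : ℝ} (h0 : 0 ≤ x) (h1 : x ≤ 1) :
    idx b m x < b ^ m ∧ (idx b m x : ℝ) ≤ (b : ℝ) ^ m * x ∧ (b : ℝ) ^ m * x ≤ idx b m x + 1 := by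
  have hbm : 1 ≤ b ^ m := Nat.one_le_pow _ _ (by omega)
  have hb0 : (0 : ℝ) ≤ (b : ℝ) ^ m := by positivity
  have hx : (0 : ℝ) ≤ (b : ℝ) ^ m * x := mul_nonneg hb0 h0
  have hf := Nat.floor_le hx
  unfold idx
  rcases le_or_gt ⌊(b : ℝ) ^ m * x⌋₊ (b ^ m - 1) with h | h
  · rw [min_eq_left h]
    exact ⟨by omega, hf, (Nat.lt_floor_add_one _).le⟩
  · rw [min_eq_right h.le]
    have hc : ((b ^ m - 1 : ℕ) : ℝ) = (b : ℝ) ^ m - 1 := by
      rw [Nat.cast_sub hbm]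
      push_cast
      ring
    refine ⟨by omega, ?_, ?_⟩
    · have h2 : ((b ^ m - 1 : ℕ) : ℝ) ≤ ((⌊(b : ℝ) ^ m * x⌋₊ : ℕ) : ℝ) := by exact_mod_cast h.le
      exact h2.trans hf
    · rw [hc]
      nlinarith

/-- one small interval is covered by at most three cells of the right level -/
theorem piece {b : ℕ} (hb : 2 ≤ b) {s : ℝ} (hs : 0 ≤ s) (N : ℕ) {x0 l : ℝ} (h0 : 0 ≤ x0)
    (h1 : x0 ≤ 1) (hl : 0 < l) (hlN : l ≤ (1 / (b : ℝ)) ^ N) :
    ∃ T : Finset (ℕ × ℕ), (∀ t ∈ T, N ≤ t.1 ∧ t.2 < b ^ t.1) ∧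
      (∀ x ∈ Icc (0 : ℝ) 1, |x - x0| < l → ∃ t ∈ T,
        x ∈ Icc ((t.2 : ℝ) / (b : ℝ) ^ t.1) (((t.2 : ℝ) + 1) / (b : ℝ) ^ t.1)) ∧
      ∑ t ∈ T, (b : ℝ) ^ (-(s * t.1)) ≤ 3 * ((b : ℝ) ^ s * l ^ s) := by
  have hb1 : (1 : ℝ) < b := by exact_mod_cast hb
  have hb0 : (0 : ℝ) < b := by linarith
  have hy0 : (0 : ℝ) < 1 / (b : ℝ) := by positivity
  have hy1 : 1 / (b : ℝ) < 1 := by
    rw [div_lt_one hb0]
    exact hb1
  have hl1 : l ≤ 1 := hlN.trans (pow_le_one₀ hy0.le hy1.le)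
  obtain ⟨m, hm1, hm2⟩ := exists_nat_pow_near_of_lt_one hl hl1 hy0 hy1
  have hNm : N ≤ m := by
    by_contra hcon
    have h2 : m + 1 ≤ N := by omega
    have h3 : (1 / (b : ℝ)) ^ N ≤ (1 / (b : ℝ)) ^ (m + 1) :=
      pow_le_pow_of_le_one hy0.le hy1.le h2
    linarith
  have hbm : (0 : ℝ) < (b : ℝ) ^ m := by positivity
  have hinv : (1 / (b : ℝ)) ^ m * (b : ℝ) ^ m = 1 := by
    rw [one_div, inv_pow]
    exact inv_mul_cancel₀ hbm.ne'
  obtain ⟨hi1, hi2, hi3⟩ := idx_spec (m := m) hb h0 h1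
  refine ⟨((Finset.Icc (idx b m x0 - 1) (idx b m x0 + 1)).filter (fun z => z < b ^ m)).image
    (fun z => (m, z)), ?_, ?_, ?_⟩
  · intro t ht
    obtain ⟨z, hz, rfl⟩ := Finset.mem_image.mp ht
    exact ⟨hNm, (Finset.mem_filter.mp hz).2⟩
  · intro x hx hxl
    obtain ⟨hj1, hj2, hj3⟩ := idx_spec (m := m) hb hx.1 hx.2
    have habs := abs_lt.mp hxl
    have hd1 : (b : ℝ) ^ m * x < (b : ℝ) ^ m * x0 + 1 := by
      have : (x - x0) * (b : ℝ) ^ m < 1 := by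
        calc (x - x0) * (b : ℝ) ^ m < l * (b : ℝ) ^ m := mul_lt_mul_of_pos_right habs.2 hbm
          _ ≤ (1 / (b : ℝ)) ^ m * (b : ℝ) ^ m := mul_le_mul_of_nonneg_right hm2 hbm.le
          _ = 1 := hinv
      linarith
    have hd2 : (b : ℝ) ^ m * x0 < (b : ℝ) ^ m * x + 1 := by
      have : (x0 - x) * (b : ℝ) ^ m < 1 := by
        calc (x0 - x) * (b : ℝ) ^ m < l * (b : ℝ) ^ m :=
              mul_lt_mul_of_pos_right (by linarith [habs.1]) hbm
          _ ≤ (1 / (b : ℝ)) ^ m * (b : ℝ) ^ m := mul_le_mul_of_nonneg_right hm2 hbm.le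
          _ = 1 := hinv
      linarith
    have he1 : idx b m x < idx b m x0 + 2 := by
      have : (idx b m x : ℝ) < (idx b m x0 : ℝ) + 2 := by linarith
      exact_mod_cast this
    have he2 : idx b m x0 < idx b m x + 2 := by
      have : (idx b m x0 : ℝ) < (idx b m x : ℝ) + 2 := by linarith
      exact_mod_cast this
    refine ⟨(m, idx b m x), Finset.mem_image.mpr ⟨idx b m x, Finset.mem_filter.mpr
      ⟨Finset.mem_Icc.mpr ⟨by omega, by omega⟩, hj1⟩, rfl⟩, ?_, ?_⟩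
    · show (idx b m x : ℝ) / (b : ℝ) ^ m ≤ x
      rw [div_le_iff₀ hbm]
      linarith
    · show x ≤ ((idx b m x : ℝ) + 1) / (b : ℝ) ^ m
      rw [le_div_iff₀ hbm]
      linarith
  · have hpow : (b : ℝ) ^ (-(s * m)) ≤ (b : ℝ) ^ s * l ^ s := by
      have e1 : (b : ℝ) ^ (-(s * m)) = ((1 / (b : ℝ)) ^ m) ^ s := by
        rw [← Real.rpow_natCast, one_div, Real.inv_rpow hb0.le, ← Real.rpow_neg hb0.le,
          ← Real.rpow_mul hb0.le]
        congr 1
        ring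
      rw [e1, ← Real.mul_rpow hb0.le hl.le]
      apply Real.rpow_le_rpow (by positivity) _ hs
      have e2 : (1 / (b : ℝ)) ^ m = b * (1 / (b : ℝ)) ^ (m + 1) := by
        rw [pow_succ]
        field_simp
      rw [e2]
      exact mul_le_mul_of_nonneg_left hm1.le hb0.le
    have hpow0 : (0 : ℝ) ≤ (b : ℝ) ^ (-(s * m)) := by positivity
    have h2 := Finset.sum_le_card_nsmul
      (((Finset.Icc (idx b m x0 - 1) (idx b m x0 + 1)).filter (fun z => z < b ^ m)).image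
        (fun z => (m, z))) (fun t : ℕ × ℕ => (b : ℝ) ^ (-(s * t.1))) ((b : ℝ) ^ (-(s * m)))
      (by
        intro t ht
        obtain ⟨z, hz, rfl⟩ := Finset.mem_image.mp ht
        exact le_rfl)
    refine h2.trans ?_
    have h3 : (((Finset.Icc (idx b m x0 - 1) (idx b m x0 + 1)).filter (fun z => z < b ^ m)).image
        (fun z => (m, z))).card ≤ 3 := by
      refine Finset.card_image_le.trans ((Finset.card_filter_le _ _).trans ?_)
      rw [Nat.card_Icc]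
      omega
    rw [nsmul_eq_mul]
    have h4 : (((((Finset.Icc (idx b m x0 - 1) (idx b m x0 + 1)).filter
        (fun z => z < b ^ m)).image (fun z => (m, z))).card : ℕ) : ℝ) ≤ 3 := by
      exact_mod_cast h3
    calc _ ≤ 3 * (b : ℝ) ^ (-(s * m)) := mul_le_mul_of_nonneg_right h4 hpow0
      _ ≤ _ := by linarith

/-- finitely many pieces -/
theorem pieces {b : ℕ} (hb : 2 ≤ b) {s : ℝ} (hs : 0 ≤ s) (N : ℕ) (x0 l : ℕ → ℝ) (F : Finset ℕ)
    (h : ∀ n ∈ F, 0 ≤ x0 n ∧ x0 n ≤ 1 ∧ 0 < l n ∧ l n ≤ (1 / (b : ℝ)) ^ N) :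
    ∃ T : Finset (ℕ × ℕ), (∀ t ∈ T, N ≤ t.1 ∧ t.2 < b ^ t.1) ∧
      (∀ x ∈ Icc (0 : ℝ) 1, (∃ n ∈ F, |x - x0 n| < l n) → ∃ t ∈ T,
        x ∈ Icc ((t.2 : ℝ) / (b : ℝ) ^ t.1) (((t.2 : ℝ) + 1) / (b : ℝ) ^ t.1)) ∧
      ∑ t ∈ T, (b : ℝ) ^ (-(s * t.1)) ≤ ∑ n ∈ F, 3 * ((b : ℝ) ^ s * l n ^ s) := by
  classical
  induction F using Finset.induction_on with
  | empty =>
    refine ⟨∅, by simp, ?_, by simp⟩
    rintro x - ⟨n, hn, -⟩
    simp at hn
  | insert a F ha ih =>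
    obtain ⟨T, hT1, hT2, hT3⟩ := ih (fun n hn => h n (Finset.mem_insert_of_mem hn))
    obtain ⟨g1, g2, g3, g4⟩ := h a (Finset.mem_insert_self _ _)
    obtain ⟨T', hT1', hT2', hT3'⟩ := piece hb hs N g1 g2 g3 g4
    refine ⟨T ∪ T', ?_, ?_, ?_⟩
    · intro t ht
      rcases Finset.mem_union.mp ht with ht | ht
      · exact hT1 t ht
      · exact hT1' t ht
    · rintro x hx ⟨n, hn, hxn⟩
      rcases Finset.mem_insert.mp hn with rfl | hn
      · obtain ⟨t, ht, hxt⟩ := hT2' x hx hxn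
        exact ⟨t, Finset.mem_union_right _ ht, hxt⟩
      · obtain ⟨t, ht, hxt⟩ := hT2 x hx ⟨n, hn, hxn⟩
        exact ⟨t, Finset.mem_union_left _ ht, hxt⟩
    · rw [Finset.sum_insert ha]
      have h1 := Finset.sum_union_inter (s₁ := T) (s₂ := T')
        (f := fun t : ℕ × ℕ => (b : ℝ) ^ (-(s * t.1)))
      have h2 : 0 ≤ ∑ t ∈ T ∩ T', (b : ℝ) ^ (-(s * t.1)) :=
        Finset.sum_nonneg fun t _ => by positivity
      linarith

theorem geo : S_GEO := by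
  intro b s c N Z hb hs hc hZ hZ1 H
  rcases hs.eq_or_lt with rfl | hs0
  · simp
  by_contra hcon
  rw [not_le] at hcon
  have hb1 : (1 : ℝ) < b := by exact_mod_cast hb
  have hb0 : (0 : ℝ) < b := by linarith
  set R : ℝ := (1 / (b : ℝ)) ^ N with hR
  have hR0 : 0 < R := by positivity
  have hcs : (s.toNNReal : ℝ) = s := Real.coe_toNNReal s hs
  have hmu : Measure.hausdorffMeasure s Z = 0 := by
    have h1 : dimH Z < (s.toNNReal : ℝ≥0∞) := hcon
    have h2 := hausdorffMeasure_of_dimH_lt h1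
    rwa [hcs] at h2
  rw [Measure.hausdorffMeasure_apply] at hmu
  -- constants
  set K : ℝ := 3 * (b : ℝ) ^ s with hK
  have hK0 : 0 < K := by positivity
  set ε : ℝ := c / (4 * K) with hε
  have hε0 : 0 < ε := by positivity
  have hinf : (⨅ (t : ℕ → Set ℝ) (_ : Z ⊆ ⋃ n, t n) (_ : ∀ n, Metric.ediam (t n) ≤
      ENNReal.ofReal (R / 2)), ∑' n, ⨆ _ : (t n).Nonempty, Metric.ediam (t n) ^ s) <
      ENNReal.ofReal ε := by
    have h1 : (⨅ (t : ℕ → Set ℝ) (_ : Z ⊆ ⋃ n, t n) (_ : ∀ n, Metric.ediam (t n) ≤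
        ENNReal.ofReal (R / 2)), ∑' n, ⨆ _ : (t n).Nonempty, Metric.ediam (t n) ^ s) ≤ 0 := by
      rw [← hmu]
      exact le_iSup₂_of_le (ENNReal.ofReal (R / 2)) (by
        rw [ENNReal.ofReal_pos]; positivity) le_rfl
    exact h1.trans_lt (by rw [ENNReal.ofReal_pos]; exact hε0)
  simp only [iInf_lt_iff] at hinf
  obtain ⟨t, htZ, htd, htsum⟩ := hinf
  -- diameters
  have hfin : ∀ n, Metric.ediam (t n) ≠ ⊤ := fun n =>
    ((htd n).trans_lt ENNReal.ofReal_lt_top).ne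
  have hdR : ∀ n, Metric.diam (t n) < R := by
    intro n
    have h1 : Metric.diam (t n) ≤ R / 2 := by
      have := ENNReal.toReal_mono ENNReal.ofReal_ne_top (htd n)
      rwa [ENNReal.toReal_ofReal (by positivity)] at this
    linarith
  have hex : ∀ n, ∃ l : ℝ, Metric.diam (t n) < l ∧ l ≤ R ∧
      l ^ s < Metric.diam (t n) ^ s + ε * (1 / 2) ^ n := by
    intro n
    have h1 : ∀ᶠ l in 𝓝 (Metric.diam (t n)), l ^ s < Metric.diam (t n) ^ s + ε * (1 / 2) ^ n :=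
      (Real.continuousAt_rpow_const _ s (Or.inr hs)).tendsto.eventually_lt_const (by
        have : 0 < ε * (1 / 2 : ℝ) ^ n := by positivity
        linarith)
    have h2 : ∀ᶠ l in 𝓝 (Metric.diam (t n)), l < R := eventually_lt_nhds (hdR n)
    have h3 := ((h1.and h2).filter_mono (nhdsWithin_le_nhds (s := Ioi (Metric.diam (t n))))).and
      self_mem_nhdsWithin
    obtain ⟨l, ⟨h4, h5⟩, h6⟩ := h3.exists
    exact ⟨l, h6, h5.le, h4⟩
  choose l hl1 hl2 hl3 using hex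
  have hl0 : ∀ n, 0 < l n := fun n => Metric.diam_nonneg.trans_lt (hl1 n)
  -- base points
  have hpt : ∀ n, ∃ x : ℝ, (t n ∩ Z).Nonempty → x ∈ t n ∩ Z := by
    intro n
    by_cases h : (t n ∩ Z).Nonempty
    · obtain ⟨x, hx⟩ := h
      exact ⟨x, fun _ => hx⟩
    · exact ⟨0, fun h' => absurd h' h⟩
  choose x0 hx0 using hpt
  classical
  -- compactness
  have hcov : Z ⊆ ⋃ n, (if (t n ∩ Z).Nonempty then Metric.ball (x0 n) (l n) else ∅) := by
    intro z hz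
    obtain ⟨n, hn⟩ := mem_iUnion.mp (htZ hz)
    have hne : (t n ∩ Z).Nonempty := ⟨z, hn, hz⟩
    refine mem_iUnion.mpr ⟨n, ?_⟩
    rw [if_pos hne, Metric.mem_ball]
    exact (Metric.dist_le_diam_of_mem' (hfin n) hn (hx0 n hne).1).trans_lt (hl1 n)
  obtain ⟨F, hF⟩ := hZ.elim_finite_subcover _ (by
    intro n
    split_ifs
    · exact Metric.isOpen_ball
    · exact isOpen_empty) hcov
  set F' : Finset ℕ := F.filter (fun n => (t n ∩ Z).Nonempty) with hF'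
  have hF'ne : ∀ n ∈ F', (t n ∩ Z).Nonempty := fun n hn => (Finset.mem_filter.mp hn).2
  obtain ⟨T, hT1, hT2, hT3⟩ := pieces hb hs N x0 l F' (by
    intro n hn
    have h1 := hx0 n (hF'ne n hn)
    exact ⟨(hZ1 h1.2).1, (hZ1 h1.2).2, hl0 n, hl2 n⟩)
  have hc' := H T hT1 ⟨⋃ n ∈ F', Metric.ball (x0 n) (l n),
    isOpen_biUnion fun n _ => Metric.isOpen_ball, ?_, ?_⟩
  · -- numbers
    have hsum1 : ∑ n ∈ F', Metric.diam (t n) ^ s < ε := by
      have h1 : ENNReal.ofReal (∑ n ∈ F', Metric.diam (t n) ^ s) < ENNReal.ofReal ε := by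
        rw [ENNReal.ofReal_sum_of_nonneg (fun n _ => by positivity)]
        refine lt_of_le_of_lt ?_ htsum
        refine le_trans (Finset.sum_le_sum fun n hn => ?_) (ENNReal.sum_le_tsum F')
        have hne : (t n).Nonempty := (hF'ne n hn).mono inter_subset_left
        rw [ciSup_pos hne, ← ENNReal.ofReal_rpow_of_nonneg Metric.diam_nonneg hs]
        apply ENNReal.rpow_le_rpow _ hs
        rw [Metric.diam, ENNReal.ofReal_toReal (hfin n)]
      exact (ENNReal.ofReal_lt_ofReal_iff hε0).mp h1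
    have hsum2 : ∑ n ∈ F', (1 / 2 : ℝ) ^ n ≤ 2 := by
      refine (Summable.sum_le_tsum F' (fun n _ => by positivity) summable_geometric_two).trans ?_
      rw [tsum_geometric_two]
    have hsum3 : ∑ n ∈ F', l n ^ s ≤ ∑ n ∈ F', (Metric.diam (t n) ^ s + ε * (1 / 2) ^ n) :=
      Finset.sum_le_sum fun n _ => (hl3 n).le
    rw [Finset.sum_add_distrib, ← Finset.mul_sum] at hsum3
    have hsum4 : ∑ n ∈ F', 3 * ((b : ℝ) ^ s * l n ^ s) = K * ∑ n ∈ F', l n ^ s := by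
      rw [Finset.mul_sum]
      refine Finset.sum_congr rfl fun n _ => ?_
      rw [hK]
      ring
    have h5 : ∑ n ∈ F', l n ^ s < 3 * ε := by nlinarith
    have h6 : K * ∑ n ∈ F', l n ^ s < K * (3 * ε) := mul_lt_mul_of_pos_left h5 hK0
    have h7 : K * (3 * ε) = 3 / 4 * c := by
      rw [hε]
      field_simp
    linarith
  · intro z hz
    obtain ⟨n, hn, hz1⟩ := mem_iUnion₂.mp (hF hz)
    by_cases h : (t n ∩ Z).Nonempty
    · rw [if_pos h] at hz1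
      exact mem_iUnion₂.mpr ⟨n, Finset.mem_filter.mpr ⟨hn, h⟩, hz1⟩
    · rw [if_neg h] at hz1
      exact absurd hz1 (notMem_empty _)
  · rintro x ⟨hx1, hx2⟩
    obtain ⟨n, hn, hz1⟩ := mem_iUnion₂.mp hx1
    exact hT2 x hx2 ⟨n, hn, by rwa [Metric.mem_ball, Real.dist_eq] at hz1⟩

end Pool.Agent.W653.WL
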